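import Pool.Agent.helper4.NF.SpecB

/-!
# Project nf: module LBD
-/

set_option autoImplicit false

open Complex MeasureTheory

namespace Pool.Agent.NF

open Pool.Agent.helper84.DM Pool.Agent.helper78.ED Pool.Agent.DH Pool.Agent.ZD

theorem LBD_normex (x : ℝ) : ‖ex x‖ = 1 := by
  unfold ex
  exact Complex.norm_exp_ofReal_mul_I x

/-- Cauchy-Schwarz for the sum over the set `W`. -/
theorem LBD_cs (W : Finset ℝ) (a b : ℝ → ℂ) :
    ‖∑ t ∈ W, (starRingEnd ℂ) (a t) * b t‖ ^ 2 ≤ (∑ t ∈ W, ‖a t‖ ^ 2) * ∑ t ∈ W, ‖b t‖ ^ 2 := by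
  have h1 : ‖∑ t ∈ W, (starRingEnd ℂ) (a t) * b t‖ ≤ ∑ t ∈ W, ‖a t‖ * ‖b t‖ := by
    refine (norm_sum_le _ _).trans (le_of_eq ?_)
    refine Finset.sum_congr rfl fun t _ => ?_
    rw [norm_mul, RCLike.norm_conj]
  calc ‖∑ t ∈ W, (starRingEnd ℂ) (a t) * b t‖ ^ 2 ≤ (∑ t ∈ W, ‖a t‖ * ‖b t‖) ^ 2 :=
        pow_le_pow_left₀ (norm_nonneg _) h1 2
    _ ≤ _ := Finset.sum_mul_sq_le_sq_mul_sq _ _ _

theorem LBD_alg {G B μ Q S : ℝ} (hG : 0 ≤ G) (hB : 0 ≤ B) (_hQ : 0 ≤ Q)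
    (h1 : G ^ 2 ≤ B * (μ * G + Q)) (h2 : Q ^ 2 ≤ G * S) (h3 : 2 * B * μ < G) (hμ : 0 ≤ μ) :
    G ^ 3 ≤ 4 * B ^ 2 * S := by
  have hG0 : 0 < G := lt_of_le_of_lt (by positivity) h3
  have h4 : G ^ 2 ≤ 2 * (B * Q) := by nlinarith
  have h5 : (G ^ 2) ^ 2 ≤ (2 * (B * Q)) ^ 2 := pow_le_pow_left₀ (by positivity) h4 2
  have h6 : (2 * (B * Q)) ^ 2 ≤ 4 * B ^ 2 * (G * S) := by
    have : (2 * (B * Q)) ^ 2 = 4 * B ^ 2 * Q ^ 2 := by ring
    rw [this]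
    exact mul_le_mul_of_nonneg_left h2 (by positivity)
  have h7 : G * G ^ 3 ≤ G * (4 * B ^ 2 * S) := by
    calc G * G ^ 3 = (G ^ 2) ^ 2 := by ring
      _ ≤ 4 * B ^ 2 * (G * S) := h5.trans h6
      _ = G * (4 * B ^ 2 * S) := by ring
  exact le_of_mul_le_mul_left h7 hG0

theorem LBD (hLB1 : LB1_stmt) (hLB2 : LB2_stmt) : LBD_stmt := by
  intro W NP NE L bP bE D hNP hNE hL hbP hbE hd hmu
  have hD1 : 1 ≤ D := by
    have h := hd 1 le_rfl (by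
      have : 1 ≤ NP * NE * L := Nat.succ_le_of_lt (by positivity)
      omega)
    have h1 : d 1 = 1 := by simp [d]
    rwa [h1] at h
  have hD0 : 0 ≤ D := by linarith
  set G : ℝ := ∑ t ∈ W, ‖PP NP bP t * PP NE bE t‖ ^ 2 with hGdef
  have hG : 0 ≤ G := Finset.sum_nonneg fun t _ => by positivity
  set B : ℝ := 9 * (NP * NE) * D with hBdef
  have hB : 0 ≤ B := by positivity
  set μ : ℝ := mu (NP * NE * L) with hμdef
  by_cases hcase : G ≤ 2 * B * μ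
  · left
    refine hcase.trans (le_of_eq ?_)
    rw [hBdef]; ring
  right
  push Not at hcase
  -- the inner sums
  set Gl : ℕ → ℝ → ℂ := fun l τ => ∑ t ∈ W, if t = τ then 0 else BX (NP * NE * L) (τ - t) *
          (PP NP bP t * PP NE bE t * ex (-(t * Real.log l))) with hGl
  have hstep : ∀ l ∈ Finset.Ioc L (2 * L), G ^ 3 ≤ 4 * B ^ 2 * ∑ τ ∈ W, ‖Gl l τ‖ ^ 2 := by
    intro l hl
    have h1 := hLB1 W NP NE L bP bE D hNP hNE hL hbP hbE hd l hl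
    have h2 := LBD_cs W (fun τ => PP NP bP τ * PP NE bE τ * ex (-(τ * Real.log l))) (Gl l)
    have h3 : ∑ t ∈ W, ‖PP NP bP t * PP NE bE t * ex (-(t * Real.log l))‖ ^ 2 = G := by
      rw [hGdef]
      refine Finset.sum_congr rfl fun t _ => ?_
      rw [norm_mul (PP NP bP t * PP NE bE t), LBD_normex, mul_one]
    rw [h3] at h2
    exact LBD_alg hG hB (norm_nonneg _) h1 h2 hcase hmu
  have hsum := Finset.sum_le_sum hstep
  rw [Finset.sum_const, Nat.card_Ioc, nsmul_eq_mul, ← Finset.mul_sum, Finset.sum_comm] at hsum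
  have hcard : ((2 * L - L : ℕ) : ℝ) = L := by
    congr 1; omega
  rw [hcard] at hsum
  have hLB2' : ∀ τ ∈ W, ∑ l ∈ Finset.Ioc L (2 * L), ‖Gl l τ‖ ^ 2 ≤
      3 * NE * D * qk W (NP * NE * L) (NE * L) (PP NP bP) τ := by
    intro τ _
    refine hLB2 W (NP * NE * L) (PP NP bP) NE L bE D τ hNE hL hbE fun k hk1 hk2 => hd k hk1 ?_
    refine hk2.trans (Nat.mul_le_mul_left _ ?_)
    have : NP * NE * L = NP * (NE * L) := by ring
    rw [this]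
    exact Nat.le_mul_of_pos_left _ hNP
  have hsum2 := Finset.sum_le_sum hLB2'
  rw [← Finset.mul_sum] at hsum2
  refine hsum.trans ((mul_le_mul_of_nonneg_left hsum2 (by positivity)).trans (le_of_eq ?_))
  rw [hBdef]; ring

end Pool.Agent.NF
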